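import Pool.Agent.H470.RatFinal2

/-!
# Nice exponents equivalent to a rational exponent of moderate size
-/

set_option autoImplicit false

namespace Pool.Agent.Results.MP_7adc1e_nt.AllRationalExponents

open Pool.Agent.H470

/-- Let `L` be a finite field of odd characteristic `p`, and `s` an invertible exponent, `s ≉ 1`, nice
over `L`.  If `s` is congruent to `(e / d) p ^ j` modulo `|L| - 1` (that is, `d s ≡ e p ^ j`) for some
coprime integers `e` and `d` with `(4 |e d|) ^ 24 < |L|` and some `j ≥ 0`, then `2` is a differential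
multiplicity of `s`. -/
theorem result (L : Type) [Field L] [Fintype L] [DecidableEq L] (hchar : ringChar L ≠ 2) (s : ℕ)
    (hcop : Nat.Coprime s (Fintype.card L - 1))
    (hs : ¬ ∃ k : ℕ, s ≡ ringChar L ^ k [MOD Fintype.card L - 1])
    (hnice : (Finset.univ.image (fun v : L =>
          (Finset.univ.filter (fun p : L × L =>
            p.1 + p.2 = 1 ∧ p.1 ^ s + p.2 ^ s = v)).card)).card ≤ 3)
    (e d : ℤ) (hed : IsCoprime e d) (hbound : (4 * (e * d).natAbs) ^ 24 < Fintype.card L)
    (hj : ∃ j : ℕ, d * (s : ℤ) ≡ e * (ringChar L : ℤ) ^ j [ZMOD ((Fintype.card L : ℤ) - 1)]) :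
    ∃ v : L, (Finset.univ.filter (fun p : L × L =>
            p.1 + p.2 = 1 ∧ p.1 ^ s + p.2 ^ s = v)).card = 2 := by
  obtain ⟨j, hj⟩ := hj
  exact rat_final3 hchar e d hed hbound s j hcop hj hs hnice

end Pool.Agent.Results.MP_7adc1e_nt.AllRationalExponents
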