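import Pool.Agent.H470.Niho5

/-!
# Nice Niho exponents
-/

set_option autoImplicit false

namespace Pool.Agent.Results.MP_7adc1e_nt.NihoExponents

open Pool.Agent.H470

/-- Let `L` be a finite field of odd characteristic `p` with `Q ^ 2` elements, and `s` an exponent
that is congruent to a power of `p` modulo `Q - 1` (a Niho exponent), but not modulo `Q ^ 2 - 1`.
If `v ↦ N(1, v)` takes at most three values, then its set of values is exactly `{0, 2, Q}`; in
particular `N(1, v) = 2` for some `v`. -/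
theorem result (L : Type) [Field L] [Fintype L] [DecidableEq L] (hchar : ringChar L ≠ 2)
    (Q : ℕ) (hQ : Fintype.card L = Q ^ 2) (s : ℕ)
    (hk : ∃ k : ℕ, s ≡ ringChar L ^ k [MOD Q - 1])
    (hs : ¬ ∃ k : ℕ, s ≡ ringChar L ^ k [MOD Fintype.card L - 1])
    (hnice : (Finset.univ.image (fun v : L =>
          (Finset.univ.filter (fun p : L × L =>
            p.1 + p.2 = 1 ∧ p.1 ^ s + p.2 ^ s = v)).card)).card ≤ 3) :
    Finset.univ.image (fun v : L =>
          (Finset.univ.filter (fun p : L × L =>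
            p.1 + p.2 = 1 ∧ p.1 ^ s + p.2 ^ s = v)).card) = {0, 2, Q} := by
  obtain ⟨hs0, r, j, h, hj⟩ := niho_normal hchar Q hQ s hk hs
  have key : ∀ v : L, (Finset.univ.filter (fun p : L × L =>
      p.1 + p.2 = 1 ∧ p.1 ^ s + p.2 ^ s = v ^ (ringChar L) ^ j)).card = fc (DD Q r) v :=
    fun v => twist s (1 + r * (Q - 1)) j hs0 (by omega) hj v
  have h2 : (2 : L) ≠ 0 := by
    intro h0
    apply hchar
    have h1 : ((2 : ℕ) : L) = 0 := by exact_mod_cast h0
    exact (Nat.prime_dvd_prime_iff_eq (CharP.char_is_prime L (ringChar L)) Nat.prime_two).1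
      ((ringChar.spec L 2).1 h1)
  have himg : Finset.univ.image (fun v : L =>
          (Finset.univ.filter (fun p : L × L =>
            p.1 + p.2 = 1 ∧ p.1 ^ s + p.2 ^ s = v)).card) =
      Finset.univ.image (fc (DD (L := L) Q r)) := by
    ext m
    rw [Finset.mem_image, Finset.mem_image]
    constructor
    · rintro ⟨w, -, hw⟩
      obtain ⟨v, hv⟩ := (frob_bij (L := L) j).2 w
      simp only at hv
      rw [← hv, key v] at hw
      exact ⟨v, Finset.mem_univ _, hw⟩
    · rintro ⟨v, -, hv⟩
      exact ⟨v ^ (ringChar L) ^ j, Finset.mem_univ _, (key v).trans hv⟩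
  rw [himg] at hnice ⊢
  obtain ⟨⟨v, hv⟩, h1, hall⟩ := h.nice h2 hnice
  have hsym : ∀ x : L, DD Q r (1 - x) = DD Q r x := by
    intro x
    unfold DD
    rw [show 1 - (1 - x) = x by ring, add_comm]
  obtain ⟨w, hw⟩ := exists_fc_zero (DD (L := L) Q r) hsym
  ext m
  rw [Finset.mem_image, Finset.mem_insert, Finset.mem_insert, Finset.mem_singleton]
  constructor
  · rintro ⟨u, -, hu⟩
    by_cases hu1 : u = 1
    · rw [hu1, h1] at hu
      exact Or.inr (Or.inr hu.symm)
    · rcases hall u hu1 with h0 | h0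
      · rw [h0] at hu
        exact Or.inl hu.symm
      · rw [h0] at hu
        exact Or.inr (Or.inl hu.symm)
  · rintro (h0 | h0 | h0)
    · exact ⟨w, Finset.mem_univ _, hw.trans h0.symm⟩
    · exact ⟨v, Finset.mem_univ _, hv.trans h0.symm⟩
    · exact ⟨1, Finset.mem_univ _, h1.trans h0.symm⟩

end Pool.Agent.Results.MP_7adc1e_nt.NihoExponents
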