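import Pool.Agent.H470.SecE14

/-!
# Nice exponents congruent to a small integer modulo a large divisor of `|L| - 1`
-/

set_option autoImplicit false

namespace Pool.Agent.Results.MP_7adc1e_nt.TwistedIntegers

open Pool.Agent.H470

/-- Let `L` be a finite field of odd characteristic `p`, and `s` an invertible exponent, `s ≉ 1`, nice
over `L`. Let `h ≥ 1` and `e ≠ 0` be integers such that `s` or its inverse is congruent to `e p ^ j`
modulo `(|L| - 1) / gcd(h, |L| - 1)` for some `j ≥ 0`, that is `h s ≡ h e p ^ j` or `h s e ≡ h p ^ j`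
modulo `|L| - 1`. Suppose that `p` does not divide `e (e - 1)` if `e ≥ 2`, and that
`10000 (2 |e| (h + 1) ^ 4) ^ 24 < |L|` (for `e = 1` it is enough that `(h + 1) ^ 4 ≤ |L|`). Then `e ≠ 1`
(so for `e = 1` such an `s` is not nice), and `N(1, v) = 2` for some `v`. -/
theorem result (L : Type) [Field L] [Fintype L] [DecidableEq L] (hchar : ringChar L ≠ 2) (s : ℕ)
    (hcop : Nat.Coprime s (Fintype.card L - 1))
    (hs : ¬ ∃ k : ℕ, s ≡ ringChar L ^ k [MOD Fintype.card L - 1])
    (hnice : (Finset.univ.image (fun v : L =>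
          (Finset.univ.filter (fun p : L × L =>
            p.1 + p.2 = 1 ∧ p.1 ^ s + p.2 ^ s = v)).card)).card ≤ 3)
    (h : ℕ) (hh : 0 < h) (e : ℤ) (he : e ≠ 0)
    (hj : ∃ j : ℕ, (h : ℤ) * s ≡ h * (e * (ringChar L : ℤ) ^ j) [ZMOD ((Fintype.card L : ℤ) - 1)] ∨
      (h : ℤ) * (s * e) ≡ h * (ringChar L : ℤ) ^ j [ZMOD ((Fintype.card L : ℤ) - 1)])
    (hp : 2 ≤ e → ¬ (ringChar L : ℤ) ∣ e * (e - 1))
    (hone : e = 1 → (h + 1) ^ 4 ≤ Fintype.card L)
    (hbound : e ≠ 1 → 10000 * (2 * e.natAbs * (h + 1) ^ 4) ^ 24 < Fintype.card L) :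
    e ≠ 1 ∧ ∃ v : L, (Finset.univ.filter (fun p : L × L =>
            p.1 + p.2 = 1 ∧ p.1 ^ s + p.2 ^ s = v)).card = 2 := by
  obtain ⟨j, hj⟩ := hj
  have hfun : (fun v : L => (Finset.univ.filter (fun p : L × L =>
      p.1 + p.2 = 1 ∧ p.1 ^ s + p.2 ^ s = v)).card) = fc (Ds (L := L) s) := by
    funext v
    exact pairs_eq s v
  constructor
  · intro he1
    have hq2 := card_gt_two (L := L) hchar
    have hqZ : ((Fintype.card L - 1 : ℕ) : ℤ) = (Fintype.card L : ℤ) - 1 := by
      rw [Nat.cast_sub (by omega)]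
      norm_num
    have hk : h * s ≡ h * ringChar L ^ j [MOD Fintype.card L - 1] := by
      rw [← Int.natCast_modEq_iff, hqZ]
      push_cast
      rw [he1, one_mul, mul_one] at hj
      rcases hj with hj | hj
      · exact hj
      · exact hj
    have h4 := aut_final hchar h hh (hone he1) s ⟨j, hk⟩ hs
    omega
  · rw [hfun] at hnice
    obtain ⟨v, hv⟩ := sec_finalE hchar h hh e he hp hone hbound s j hcop hs hj hnice
    exact ⟨v, (congrFun hfun v).trans hv⟩

end Pool.Agent.Results.MP_7adc1e_nt.TwistedIntegers
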