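import Pool.Agent.H470.Wt10
import Pool.Agent.H470.Qd3

/-!
# Exponents of `p`-weight three, and their inverses
-/

set_option autoImplicit false

namespace Pool.Agent.Results.MP_7adc1e_nt.WeightThree

open Pool.Agent.H470

/-- Let `L` be a finite field of odd characteristic `p` and `s` a nice exponent with `s ≉ 1`.
Suppose that `s ≡ e p ^ j` or `s e ≡ p ^ j` modulo `|L| - 1` for some `j`, where
`e = 1 + p ^ i + p ^ k`, and

* `i = k` (no condition on `L`), or
* `p ≥ 5`, the degree of `L` over its prime field is odd or prime to `p`, and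
  `z + z ^ (p ^ i) + z ^ (p ^ k) = 0` has only the solution `z = 0` in `L`.

Then `N(1, v) = 2` for some `v`. -/
theorem result (L : Type) [Field L] [Fintype L] [DecidableEq L] (hchar : ringChar L ≠ 2) (s : ℕ)
    (hcop : Nat.Coprime s (Fintype.card L - 1))
    (hs : ¬ ∃ k : ℕ, s ≡ ringChar L ^ k [MOD Fintype.card L - 1])
    (hnice : (Finset.univ.image (fun v : L =>
          (Finset.univ.filter (fun p : L × L =>
            p.1 + p.2 = 1 ∧ p.1 ^ s + p.2 ^ s = v)).card)).card ≤ 3)
    (i k j : ℕ)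
    (hse : s ≡ (1 + ringChar L ^ i + ringChar L ^ k) * ringChar L ^ j [MOD Fintype.card L - 1] ∨
      s * (1 + ringChar L ^ i + ringChar L ^ k) ≡ ringChar L ^ j [MOD Fintype.card L - 1])
    (hik : i = k ∨ (5 ≤ ringChar L ∧
        (∃ n : ℕ, Fintype.card L = ringChar L ^ n ∧ (Odd n ∨ ¬ ringChar L ∣ n)) ∧
        ∀ z : L, z + z ^ ringChar L ^ i + z ^ ringChar L ^ k = 0 → z = 0)) :
    ∃ v : L, (Finset.univ.filter (fun p : L × L =>
      p.1 + p.2 = 1 ∧ p.1 ^ s + p.2 ^ s = v)).card = 2 := by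
  have hfun : (fun v : L => (Finset.univ.filter (fun p : L × L =>
      p.1 + p.2 = 1 ∧ p.1 ^ s + p.2 ^ s = v)).card) = fc (Ds (L := L) s) := by
    funext v
    exact pairs_eq s v
  rw [hfun] at hnice
  have hgoal : (∃ v : L, fc (Ds s) v = 2) →
      ∃ v : L, (Finset.univ.filter (fun p : L × L =>
        p.1 + p.2 = 1 ∧ p.1 ^ s + p.2 ^ s = v)).card = 2 := by
    rintro ⟨v, hv⟩
    exact ⟨v, (congrFun hfun v).trans hv⟩
  apply hgoal
  -- the statement for exponents `s' ≡ e p ^ j'`
  have hmain : ∀ (s' j' : ℕ), Nat.Coprime s' (Fintype.card L - 1) →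
      (¬ ∃ k : ℕ, s' ≡ ringChar L ^ k [MOD Fintype.card L - 1]) →
      s' ≡ (1 + ringChar L ^ i + ringChar L ^ k) * ringChar L ^ j' [MOD Fintype.card L - 1] →
      (Finset.univ.image (fc (Ds (L := L) s'))).card ≤ 3 → ∃ v : L, fc (Ds s') v = 2 := by
    intro s' j' hcop' hs' hj' hnice'
    rcases hik with rfl | ⟨hp5, ⟨n, hcard, hn⟩, hM⟩
    · have he : 1 + ringChar L ^ i + ringChar L ^ i = 2 * ringChar L ^ i + 1 := by ring
      rw [he] at hj'
      exact quad_final hchar s' (s_pos hchar s' hcop') hs' i j' hj' hnice'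
    · exact wt3_final hp5 n hcard hn s' hcop' i k j' hj' hM hnice'
  rcases hse with h | h
  · exact hmain s j hcop hs h hnice
  · have he0 : 0 < 1 + ringChar L ^ i + ringChar L ^ k := by omega
    exact inv_transfer hchar s hcop hs _ j h he0 hnice hmain

end Pool.Agent.Results.MP_7adc1e_nt.WeightThree
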